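import Pool.Agent.R2.DiaCore

/-!
# Attaching a pendant vertex at a leaf can leave the class of SSP graphs

`kite` is the graph with vertices `0,…,6` and edges `01, 02, 03, 12, 13, 04, 45, 16`: the diamond
`K₄ - {2,3}` with a path of length two (`0-4-5`) attached at one vertex of degree three and a
pendant vertex (`6`) attached at the other.  It is an SSP graph; attaching a pendant vertex at its
leaf `6` gives a graph which is not an SSP graph.
-/

set_option autoImplicit false

open Finset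

namespace Pool.Agent.Results.MP_2eee52_co.PendantLeaves

/-- the symmetric matrices of a graph: for `i ≠ j` the entry is nonzero exactly on the edges, the
diagonal is free -/
def InS {V : Type} (G : SimpleGraph V) (A : Matrix V V ℝ) : Prop :=
  A.IsSymm ∧ ∀ i j, i ≠ j → (A i j ≠ 0 ↔ G.Adj i j)

/-- the strong spectral property -/
def HasSSP {V : Type} [Fintype V] (A : Matrix V V ℝ) : Prop :=
  ∀ X : Matrix V V ℝ, X.IsSymm → (∀ i j, A i j * X i j = 0) → (∀ i, X i i = 0) →
    A * X = X * A → X = 0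

/-- SSP graphs: every matrix of the graph has the strong spectral property -/
def IsSSPGraph {V : Type} [Fintype V] (G : SimpleGraph V) : Prop :=
  ∀ A : Matrix V V ℝ, InS G A → HasSSP A

/-- `v` is a leaf: it has exactly one neighbour -/
def IsLeaf {V : Type} (G : SimpleGraph V) (v : V) : Prop := ∃! u, G.Adj v u

/-- the graph obtained from `G` by a new vertex `none` joined to `v` only -/
def attach {V : Type} (G : SimpleGraph V) (v : V) : SimpleGraph (Option V) where
  Adj x y :=
    match x, y with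
    | some a, some b => G.Adj a b
    | some a, none => a = v
    | none, some b => b = v
    | none, none => False
  symm := ⟨by
    rintro (_ | a) (_ | b) h
    · exact h
    · exact h
    · exact h
    · exact (show G.Adj a b from h).symm⟩
  loopless := ⟨by
    rintro (_ | a) h
    · exact h
    · exact G.loopless.irrefl a h⟩

/-- the edge list of the kite with two tails -/
def el : List (Fin 7 × Fin 7) := [(0, 1), (0, 2), (0, 3), (1, 2), (1, 3), (0, 4), (4, 5), (1, 6)]

/-- the diamond with a tail of length two and a tail of length one at its two vertices of degree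
three -/
def kite : SimpleGraph (Fin 7) where
  Adj i j := (i, j) ∈ el ∨ (j, i) ∈ el
  symm := ⟨fun _ _ h => h.symm⟩
  loopless := ⟨by decide⟩

instance : DecidableRel kite.Adj := fun i j =>
  inferInstanceAs (Decidable ((i, j) ∈ el ∨ (j, i) ∈ el))


theorem kite_ssp : IsSSPGraph kite := by
  intro A hA X hXs hAX hX0 hc
  obtain ⟨hAs, hAE⟩ := hA
  have sA : ∀ i j, A j i = A i j := fun i j => hAs.apply i j
  have sX : ∀ i j, X j i = X i j := fun i j => hXs.apply i j
  have nz : ∀ i j, i ≠ j → kite.Adj i j → A i j ≠ 0 := fun i j h h' => (hAE i j h).2 h'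
  have zz : ∀ i j, i ≠ j → ¬ kite.Adj i j → A i j = 0 := by
    intro i j h h'
    by_contra hne
    exact h' ((hAE i j h).1 hne)
  have xz : ∀ i j, i ≠ j → kite.Adj i j → X i j = 0 := fun i j h h' =>
    (mul_eq_zero.1 (hAX i j)).resolve_left (nz i j h h')

  have a05 : A 0 5 = 0 := zz 0 5 (by decide) (by decide)
  have a06 : A 0 6 = 0 := zz 0 6 (by decide) (by decide)
  have a14 : A 1 4 = 0 := zz 1 4 (by decide) (by decide)
  have a15 : A 1 5 = 0 := zz 1 5 (by decide) (by decide)
  have a23 : A 2 3 = 0 := zz 2 3 (by decide) (by decide)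
  have a24 : A 2 4 = 0 := zz 2 4 (by decide) (by decide)
  have a25 : A 2 5 = 0 := zz 2 5 (by decide) (by decide)
  have a26 : A 2 6 = 0 := zz 2 6 (by decide) (by decide)
  have a34 : A 3 4 = 0 := zz 3 4 (by decide) (by decide)
  have a35 : A 3 5 = 0 := zz 3 5 (by decide) (by decide)
  have a36 : A 3 6 = 0 := zz 3 6 (by decide) (by decide)
  have a46 : A 4 6 = 0 := zz 4 6 (by decide) (by decide)
  have a56 : A 5 6 = 0 := zz 5 6 (by decide) (by decide)
  have x01 : X 0 1 = 0 := xz 0 1 (by decide) (by decide)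
  have x02 : X 0 2 = 0 := xz 0 2 (by decide) (by decide)
  have x03 : X 0 3 = 0 := xz 0 3 (by decide) (by decide)
  have x12 : X 1 2 = 0 := xz 1 2 (by decide) (by decide)
  have x13 : X 1 3 = 0 := xz 1 3 (by decide) (by decide)
  have x04 : X 0 4 = 0 := xz 0 4 (by decide) (by decide)
  have x45 : X 4 5 = 0 := xz 4 5 (by decide) (by decide)
  have x16 : X 1 6 = 0 := xz 1 6 (by decide) (by decide)
  have d0 : X 0 0 = 0 := hX0 0
  have d1 : X 1 1 = 0 := hX0 1
  have d2 : X 2 2 = 0 := hX0 2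
  have d3 : X 3 3 = 0 := hX0 3
  have d4 : X 4 4 = 0 := hX0 4
  have d5 : X 5 5 = 0 := hX0 5
  have d6 : X 6 6 = 0 := hX0 6
  have s10 : A 1 0 = A 0 1 := sA 0 1
  have y10 : X 1 0 = X 0 1 := sX 0 1
  have s20 : A 2 0 = A 0 2 := sA 0 2
  have y20 : X 2 0 = X 0 2 := sX 0 2
  have s30 : A 3 0 = A 0 3 := sA 0 3
  have y30 : X 3 0 = X 0 3 := sX 0 3
  have s40 : A 4 0 = A 0 4 := sA 0 4
  have y40 : X 4 0 = X 0 4 := sX 0 4
  have s50 : A 5 0 = A 0 5 := sA 0 5
  have y50 : X 5 0 = X 0 5 := sX 0 5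
  have s60 : A 6 0 = A 0 6 := sA 0 6
  have y60 : X 6 0 = X 0 6 := sX 0 6
  have s21 : A 2 1 = A 1 2 := sA 1 2
  have y21 : X 2 1 = X 1 2 := sX 1 2
  have s31 : A 3 1 = A 1 3 := sA 1 3
  have y31 : X 3 1 = X 1 3 := sX 1 3
  have s41 : A 4 1 = A 1 4 := sA 1 4
  have y41 : X 4 1 = X 1 4 := sX 1 4
  have s51 : A 5 1 = A 1 5 := sA 1 5
  have y51 : X 5 1 = X 1 5 := sX 1 5
  have s61 : A 6 1 = A 1 6 := sA 1 6
  have y61 : X 6 1 = X 1 6 := sX 1 6
  have s32 : A 3 2 = A 2 3 := sA 2 3
  have y32 : X 3 2 = X 2 3 := sX 2 3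
  have s42 : A 4 2 = A 2 4 := sA 2 4
  have y42 : X 4 2 = X 2 4 := sX 2 4
  have s52 : A 5 2 = A 2 5 := sA 2 5
  have y52 : X 5 2 = X 2 5 := sX 2 5
  have s62 : A 6 2 = A 2 6 := sA 2 6
  have y62 : X 6 2 = X 2 6 := sX 2 6
  have s43 : A 4 3 = A 3 4 := sA 3 4
  have y43 : X 4 3 = X 3 4 := sX 3 4
  have s53 : A 5 3 = A 3 5 := sA 3 5
  have y53 : X 5 3 = X 3 5 := sX 3 5
  have s63 : A 6 3 = A 3 6 := sA 3 6
  have y63 : X 6 3 = X 3 6 := sX 3 6
  have s54 : A 5 4 = A 4 5 := sA 4 5
  have y54 : X 5 4 = X 4 5 := sX 4 5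
  have s64 : A 6 4 = A 4 6 := sA 4 6
  have y64 : X 6 4 = X 4 6 := sX 4 6
  have s65 : A 6 5 = A 5 6 := sA 5 6
  have y65 : X 6 5 = X 5 6 := sX 5 6
  have hE : ∀ i j, A i 0 * X 0 j + A i 1 * X 1 j + A i 2 * X 2 j + A i 3 * X 3 j + A i 4 * X 4 j
      + A i 5 * X 5 j + A i 6 * X 6 j
      = X i 0 * A 0 j + X i 1 * A 1 j + X i 2 * A 2 j + X i 3 * A 3 j + X i 4 * A 4 j
      + X i 5 * A 5 j + X i 6 * A 6 j := by
    intro i j
    have h := congrFun (congrFun hc i) j
    rw [Matrix.mul_apply, Matrix.mul_apply, Fin.sum_univ_seven, Fin.sum_univ_seven] at h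
    exact h
  have ab := hE 0 1
  have au := hE 0 2
  have av := hE 0 3
  have ap := hE 0 4
  have aq := hE 0 5
  have ar := hE 0 6
  have bu := hE 1 2
  have bv := hE 1 3
  have bp := hE 1 4
  have bq := hE 1 5
  have br := hE 1 6
  have uv := hE 2 3
  have up := hE 2 4
  have uq := hE 2 5
  have ur := hE 2 6
  have vp := hE 3 4
  have vq := hE 3 5
  have vr := hE 3 6
  have pq := hE 4 5
  have pr := hE 4 6
  have qr := hE 5 6
  simp only [a05, a06, a14, a15, a23, a24, a25, a26, a34, a35, a36, a46, a56, x01, x02, x03, x12, x13, x04, x45, x16, d0, d1, d2, d3, d4, d5, d6, s10, s20, s30, s40, s50, s60, s21, s31, s41, s51, s61, s32, s42, s52, s62, s43, s53, s63, s54, s64, s65, y10, y20, y30, y40, y50, y60, y21, y31, y41, y51, y61, y32, y42, y52, y62, y43, y53, y63, y54, y64, y65, mul_zero, zero_mul, add_zero, zero_add] at ab au av ap aq ar bu bv bp bq br uv up uq ur vp vq vr pq pr qr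

  have he : A 0 1 ≠ 0 := nz 0 1 (by decide) (by decide)
  have hα : A 0 2 ≠ 0 := nz 0 2 (by decide) (by decide)
  have hβ : A 0 3 ≠ 0 := nz 0 3 (by decide) (by decide)
  have hγ : A 1 2 ≠ 0 := nz 1 2 (by decide) (by decide)
  have hδ : A 1 3 ≠ 0 := nz 1 3 (by decide) (by decide)
  have hf : A 0 4 ≠ 0 := nz 0 4 (by decide) (by decide)
  have hg : A 4 5 ≠ 0 := nz 4 5 (by decide) (by decide)
  have hh : A 1 6 ≠ 0 := nz 1 6 (by decide) (by decide)
  have ht := R2.DiaCore.t_zero (e := A 0 1) (α := A 0 2) (β := A 0 3) (γ := A 1 2) (δ := A 1 3)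
    (f := A 0 4) (g := A 4 5) (h := A 1 6) (Da := A 0 0) (Db := A 1 1) (Du := A 2 2)
    (Dv := A 3 3) (Dp := A 4 4) (Dq := A 5 5) (Dr := A 6 6)
    (Xuv := X 2 3) (Xup := X 2 4) (Xuq := X 2 5) (Xur := X 2 6) (Xvp := X 3 4)
    (Xvq := X 3 5) (Xvr := X 3 6) (Xaq := X 0 5) (Xar := X 0 6) (Xbp := X 1 4) (Xbq := X 1 5)
    (Xpr := X 4 6) (Xqr := X 5 6) he hα hβ hγ hδ hf hg hh
    (by linear_combination ab)
    (by linear_combination au)
    (by linear_combination av)
    (by linear_combination ap)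
    (by linear_combination aq)
    (by linear_combination ar)
    (by linear_combination bu)
    (by linear_combination bv)
    (by linear_combination bp)
    (by linear_combination bq)
    (by linear_combination br)
    (by linear_combination uv)
    (by linear_combination up)
    (by linear_combination uq)
    (by linear_combination ur)
    (by linear_combination vp)
    (by linear_combination vq)
    (by linear_combination vr)
    (by linear_combination pq)
    (by linear_combination pr)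
    (by linear_combination qr)
  obtain ⟨q1, q2, q3, q4, q5, q6, q7, q8, q9, q10, q11, q12, q13⟩ :=
    R2.DiaCore.rest (e := A 0 1) (α := A 0 2) (β := A 0 3) (γ := A 1 2) (δ := A 1 3)
    (f := A 0 4) (g := A 4 5) (h := A 1 6) (Da := A 0 0) (Db := A 1 1) (Du := A 2 2)
    (Dv := A 3 3) (Dp := A 4 4) (Dr := A 6 6)
    (Xuv := X 2 3) (Xup := X 2 4) (Xuq := X 2 5) (Xur := X 2 6) (Xvp := X 3 4)
    (Xvq := X 3 5) (Xvr := X 3 6) (Xaq := X 0 5) (Xar := X 0 6) (Xbp := X 1 4) (Xbq := X 1 5)
    (Xpr := X 4 6) (Xqr := X 5 6) he hα hβ hf hg hh ht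
    (by linear_combination ab)
    (by linear_combination au)
    (by linear_combination av)
    (by linear_combination ap)
    (by linear_combination ar)
    (by linear_combination bu)
    (by linear_combination bv)
    (by linear_combination bp)
    (by linear_combination up)
    (by linear_combination vp)
    (by linear_combination pq)
    (by linear_combination pr)
  ext i j
  rw [Matrix.zero_apply]
  fin_cases i <;> fin_cases j <;>
    simp only [Fin.zero_eta, Fin.mk_one, Fin.reduceFinMk, Fin.isValue, x01, x02, x03, x12, x13, x04, x45, x16, d0, d1, d2, d3, d4, d5, d6, y10, y20, y30, y40, y50, y60, y21, y31, y41, y51, y61, y32, y42, y52, y62, y43, y53, y63, y54, y64, y65, q1, q2, q3, q4, q5, q6, q7, q8, q9, q10, q11, q12, q13]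

/-- index of a vertex of the larger graph -/
def ix : Option (Fin 7) → ℕ
  | none => 7
  | some i => i.1

/-- a matrix of the larger graph -/
def tA : List (List ℤ) :=
  [[2, 1, 1, 1, 1, 0, 0, 0],
   [1, 2, 1, 1, 0, 0, 1, 0],
   [1, 1, 3, 0, 0, 0, 0, 0],
   [1, 1, 0, 3, 0, 0, 0, 0],
   [1, 0, 0, 0, 0, 1, 0, 0],
   [0, 0, 0, 0, 1, 0, 0, 0],
   [0, 1, 0, 0, 0, 0, 0, 1],
   [0, 0, 0, 0, 0, 0, 1, 0]]

/-- a matrix commuting with it -/
def tX : List (List ℤ) :=
  [[0, 0, 0, 0, 0, 0, -2, -2],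
   [0, 0, 0, 0, -2, -2, 0, 0],
   [0, 0, 0, -1, 1, 1, 1, 1],
   [0, 0, -1, 0, 1, 1, 1, 1],
   [0, -2, 1, 1, 0, 0, 0, 0],
   [0, -2, 1, 1, 0, 0, 0, 2],
   [-2, 0, 1, 1, 0, 0, 0, 0],
   [-2, 0, 1, 1, 0, 2, 0, 0]]

def mA : Matrix (Option (Fin 7)) (Option (Fin 7)) ℤ :=
  Matrix.of fun x y => (tA.getD (ix x) []).getD (ix y) 0

def mX : Matrix (Option (Fin 7)) (Option (Fin 7)) ℤ :=
  Matrix.of fun x y => (tX.getD (ix x) []).getD (ix y) 0

instance : DecidableRel (attach kite 6).Adj := fun x y =>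
  match x, y with
  | some a, some b => inferInstanceAs (Decidable (kite.Adj a b))
  | some a, none => inferInstanceAs (Decidable (a = 6))
  | none, some b => inferInstanceAs (Decidable (b = 6))
  | none, none => inferInstanceAs (Decidable False)

theorem mA_symm : ∀ x y, mA y x = mA x y := by decide +kernel

theorem mX_symm : ∀ x y, mX y x = mX x y := by decide +kernel

theorem mA_adj : ∀ x y, x ≠ y → (mA x y ≠ 0 ↔ (attach kite 6).Adj x y) := by decide +kernel

theorem m_had : ∀ x y, mA x y * mX x y = 0 := by decide +kernel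

theorem mX_diag : ∀ x, mX x x = 0 := by decide +kernel

theorem m_comm : mA * mX = mX * mA := by decide +kernel

theorem mX_ne : mX (some 0) (some 6) ≠ 0 := by decide +kernel

/-- the larger graph is not an SSP graph -/
theorem not_ssp : ¬ IsSSPGraph (attach kite 6) := by
  intro h
  have h1 := h (mA.map (Int.castRingHom ℝ)) ⟨?_, ?_⟩ (mX.map (Int.castRingHom ℝ)) ?_ ?_ ?_ ?_
  · have h2 := congrFun (congrFun h1 (some 0)) (some 6)
    rw [Matrix.map_apply, Matrix.zero_apply, eq_intCast] at h2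
    exact mX_ne (by exact_mod_cast h2)
  · ext x y
    rw [Matrix.transpose_apply, Matrix.map_apply, Matrix.map_apply, mA_symm]
  · intro x y hxy
    rw [Matrix.map_apply, eq_intCast, ← mA_adj x y hxy]
    exact_mod_cast Iff.rfl
  · ext x y
    rw [Matrix.transpose_apply, Matrix.map_apply, Matrix.map_apply, mX_symm]
  · intro x y
    rw [Matrix.map_apply, Matrix.map_apply, eq_intCast, eq_intCast]
    exact_mod_cast m_had x y
  · intro x
    rw [Matrix.map_apply, mX_diag, map_zero]
  · rw [← Matrix.map_mul, ← Matrix.map_mul, m_comm]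

/-- `6` is a leaf of the kite -/
theorem leaf6 : IsLeaf kite 6 := by
  refine ⟨1, by decide, ?_⟩
  decide

/-- **Attaching a pendant vertex at a leaf of an SSP graph can destroy the property.** -/
theorem result :
    IsSSPGraph kite ∧ IsLeaf kite 6 ∧ ¬ IsSSPGraph (attach kite 6) ∧
    ¬ ∀ (n : ℕ) (G : SimpleGraph (Fin n)) (v : Fin n),
      IsSSPGraph G → IsLeaf G v → IsSSPGraph (attach G v) :=
  ⟨kite_ssp, leaf6, not_ssp, fun h => not_ssp (h 7 kite 6 kite_ssp leaf6)⟩

end Pool.Agent.Results.MP_2eee52_co.PendantLeaves
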